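import Pool.Agent.helper6.EV.Spec

/-!
# Project ev: module I3: pigeonhole inequality
-/

set_option autoImplicit false

namespace Pool.Agent.EV

open N1f72dd46 Filter MeasureTheory Complex Metric Pool.Agent.helper6.LD

theorem I3_card (A B : ℕ) (h : A ≤ B) :
    (((Finset.Ioc A B).filter Nat.Prime).card : ℝ) =
      (Nat.primeCounting B : ℝ) - (Nat.primeCounting A : ℝ) := by
  have h1 : (Finset.range (B + 1)).filter Nat.Prime =
      (Finset.range (A + 1)).filter Nat.Prime ∪ (Finset.Ioc A B).filter Nat.Prime := by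
    ext k
    simp only [Finset.mem_filter, Finset.mem_range, Finset.mem_union, Finset.mem_Ioc]
    constructor
    · rintro ⟨h2, h3⟩
      rcases Nat.lt_or_ge k (A + 1) with h4 | h4
      · exact Or.inl ⟨h4, h3⟩
      · exact Or.inr ⟨⟨by omega, by omega⟩, h3⟩
    · rintro (⟨h2, h3⟩ | ⟨⟨h2, h4⟩, h3⟩)
      · exact ⟨by omega, h3⟩
      · exact ⟨by omega, h3⟩
  have h2 : Disjoint ((Finset.range (A + 1)).filter Nat.Prime)
      ((Finset.Ioc A B).filter Nat.Prime) := by
    rw [Finset.disjoint_left]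
    intro k hk hk'
    simp only [Finset.mem_filter, Finset.mem_range, Finset.mem_Ioc] at hk hk'
    omega
  have h3 : ∀ n, Nat.primeCounting n = ((Finset.range (n + 1)).filter Nat.Prime).card := by
    intro n
    rw [Nat.primeCounting, Nat.primeCounting', Nat.count_eq_card_filter_range]
  rw [h3 B, h3 A, h1, Finset.card_union_of_disjoint h2]
  push_cast
  ring

theorem I3_pc (y z : ℝ) (h : y ≤ z) :
    (((Finset.Ioc ⌊y⌋₊ ⌊z⌋₊).filter Nat.Prime).card : ℝ) = pc z - pc y :=
  I3_card _ _ (Nat.floor_le_floor h)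

theorem I3 (hI2 : I2_stmt) : I3_stmt := by
  intro n x h l hx hxn h3x hh hl hhl
  have hx1 : (1 : ℝ) < x := lt_trans (Real.one_lt_exp_iff.2 (by norm_num)) h3x
  have hx0 : (0 : ℝ) < x := by linarith
  have hn1 : 1 ≤ n := by
    rcases Nat.eq_zero_or_pos n with h0 | h0
    · rw [h0, Nat.cast_zero] at hxn
      nlinarith
    · exact h0
  have hn0 : (0 : ℝ) < n := by exact_mod_cast hn1
  obtain ⟨a, ha, hcop, hsum⟩ := hI2 n hn1
  have hfl : ⌊x⌋₊ = Nat.sqrt n := by
    have h1 : x = Real.sqrt (n : ℝ) := by rw [← hxn, Real.sqrt_sq hx]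
    rw [h1]
    exact Real.nat_floor_real_sqrt_eq_nat_sqrt
  have han : ∀ p, a p ≤ n := by
    intro p
    rcases ha p with h1 | h1
    · omega
    · exact h1.2.2.1
  set P : Finset ℕ := (Finset.Ioc ⌊x * Real.exp (-(h + l))⌋₊ ⌊x * Real.exp (-h)⌋₊).filter Nat.Prime
    with hP
  set Q : Finset ℕ := (Finset.Ioc ⌊x⌋₊ ⌊x * Real.exp (h + l)⌋₊).filter Nat.Prime with hQ
  have hPc : (P.card : ℝ) = pc (x * Real.exp (-h)) - pc (x * Real.exp (-(h + l))) :=
    I3_pc _ _ (mul_le_mul_of_nonneg_left (Real.exp_le_exp.2 (by linarith)) hx)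
  have hQc : (Q.card : ℝ) = pc (x * Real.exp (h + l)) - pc x :=
    I3_pc _ _ (by nlinarith [Real.one_le_exp (show 0 ≤ h + l by linarith)])
  set P0 : Finset ℕ := P.filter (fun p => (n : ℝ) * h / 2 ≤ (n : ℝ) - a p) with hP0
  set P1 : Finset ℕ := P.filter (fun p => ¬ ((n : ℝ) * h / 2 ≤ (n : ℝ) - a p)) with hP1
  have hPP : P0.card + P1.card = P.card := Finset.card_filter_add_card_filter_not _
  have hmP : ∀ p ∈ P, p.Prime ∧ x * Real.exp (-(h + l)) < p ∧ (p : ℝ) ≤ x * Real.exp (-h) := by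
    intro p hp
    rw [hP, Finset.mem_filter, Finset.mem_Ioc] at hp
    exact ⟨hp.2, (Nat.floor_lt (by positivity)).1 hp.1.1,
      (Nat.le_floor_iff (by positivity)).1 hp.1.2⟩
  have hm : ∀ p ∈ P1, p ∣ a p ∧ (a p / p).Prime ∧ x < ((a p / p : ℕ) : ℝ) ∧
      ((a p / p : ℕ) : ℝ) ≤ x * Real.exp (h + l) ∧ a p ≠ 0 := by
    intro p hp
    rw [hP1, Finset.mem_filter, not_le] at hp
    obtain ⟨hpP, hlt⟩ := hp
    obtain ⟨hpr, hp1, hp2⟩ := hmP p hpP
    have hp0 : (0 : ℝ) < p := by exact_mod_cast hpr.pos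
    have hne : a p ≠ 0 := by
      intro h0
      rw [h0, Nat.cast_zero, sub_zero] at hlt
      nlinarith
    obtain ⟨-, ha1, ha2, ha3⟩ := (ha p).resolve_left hne
    have hdvd : p ∣ a p := by
      have := Nat.minFac_dvd (a p)
      rwa [ha3] at this
    obtain ⟨m, hm⟩ := hdvd
    have hmm : a p / p = m := by rw [hm, Nat.mul_div_cancel_left _ hpr.pos]
    rw [hmm]
    have hcast : (a p : ℝ) = p * m := by rw [hm, Nat.cast_mul]
    have hxm : x < (m : ℝ) := by
      by_contra hcon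
      rw [not_lt] at hcon
      have h1 : (n : ℝ) - p * m < n * h / 2 := by rw [← hcast]; exact hlt
      have h2 : (p : ℝ) * m ≤ x * Real.exp (-h) * x :=
        mul_le_mul hp2 hcon (Nat.cast_nonneg _) (by positivity)
      have h4 : Real.exp (-h) * (1 + h) ≤ 1 := by
        have h5 := Real.add_one_le_exp h
        have h6 : Real.exp (-h) * Real.exp h = 1 := by rw [← Real.exp_add]; simp
        calc Real.exp (-h) * (1 + h) ≤ Real.exp (-h) * Real.exp h :=
              mul_le_mul_of_nonneg_left (by linarith) (Real.exp_pos _).le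
          _ = 1 := h6
      have h7 : Real.exp (-h) ≤ 1 - h / 2 := by
        have h8 : (1 : ℝ) ≤ (1 - h / 2) * (1 + h) := by nlinarith
        have h9 : 0 < 1 + h := by linarith
        by_contra hc
        rw [not_le] at hc
        nlinarith
      have h10 : x * Real.exp (-h) * x ≤ n * (1 - h / 2) := by
        rw [← hxn]
        nlinarith [mul_le_mul_of_nonneg_left h7 (mul_nonneg hx hx)]
      nlinarith
    have hmx : (m : ℝ) ≤ x * Real.exp (h + l) := by
      by_contra hcon
      rw [not_le] at hcon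
      have h1 : (a p : ℝ) ≤ n := by exact_mod_cast ha2
      rw [hcast, ← hxn] at h1
      have h2 : x * Real.exp (-(h + l)) * (x * Real.exp (h + l)) < p * m :=
        mul_lt_mul'' hp1 hcon (by positivity) (by positivity)
      have h3 : x * Real.exp (-(h + l)) * (x * Real.exp (h + l)) = x ^ 2 := by
        have h6 : Real.exp (-(h + l)) * Real.exp (h + l) = 1 := by
          rw [← Real.exp_add, neg_add_cancel, Real.exp_zero]
        calc x * Real.exp (-(h + l)) * (x * Real.exp (h + l)) =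
              x ^ 2 * (Real.exp (-(h + l)) * Real.exp (h + l)) := by ring
          _ = x ^ 2 := by rw [h6, mul_one]
      linarith
    have hm1 : 1 < m := by
      have : (1 : ℝ) < m := by linarith
      exact_mod_cast this
    refine ⟨Dvd.intro m hm.symm, ?_, hxm, hmx, hne⟩
    by_contra hnp
    have h1 : m.minFac ^ 2 ≤ m := Nat.minFac_sq_le_self (by omega) hnp
    have h2 : p ≤ m.minFac := by
      have h3 : m.minFac ∣ a p := (Nat.minFac_dvd m).trans (by rw [hm]; exact Dvd.intro_left p rfl)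
      have h4 := Nat.minFac_le_of_dvd (Nat.minFac_prime (by omega)).two_le h3
      rwa [ha3] at h4
    have h3 : (p : ℝ) ^ 2 ≤ m := by
      have : p ^ 2 ≤ m := (Nat.pow_le_pow_left h2 2).trans h1
      exact_mod_cast this
    have h4 : x * Real.exp (-1) < p :=
      lt_of_le_of_lt (mul_le_mul_of_nonneg_left (Real.exp_le_exp.2 (by linarith)) hx) hp1
    have h5 : (m : ℝ) ≤ x * Real.exp 1 :=
      hmx.trans (mul_le_mul_of_nonneg_left (Real.exp_le_exp.2 (by linarith)) hx)
    have h6 : (x * Real.exp (-1)) ^ 2 < x * Real.exp 1 := by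
      have h7 : (x * Real.exp (-1)) ^ 2 < (p : ℝ) ^ 2 := pow_lt_pow_left₀ h4 (by positivity) (by norm_num)
      linarith
    have h7 : Real.exp (-1) * Real.exp (-1) * Real.exp 3 = Real.exp 1 := by
      rw [← Real.exp_add, ← Real.exp_add]
      norm_num
    have h8 : x * Real.exp 1 < (x * Real.exp (-1)) ^ 2 := by
      rw [← h7]
      have h9 : 0 < x * (Real.exp (-1) * Real.exp (-1)) := by positivity
      nlinarith
    linarith
  have hinj : P1.card ≤ Q.card := by
    refine Finset.card_le_card_of_injOn (fun p => a p / p) ?_ ?_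
    · intro p hp
      obtain ⟨-, h2, h3, h4, -⟩ := hm p hp
      show a p / p ∈ (Q : Set ℕ)
      rw [Finset.mem_coe, hQ, Finset.mem_filter, Finset.mem_Ioc]
      exact ⟨⟨(Nat.floor_lt hx).2 h3, Nat.le_floor h4⟩, h2⟩
    · intro p hp p' hp' heq
      by_contra hne
      obtain ⟨h1, h2, -, -, h5⟩ := hm p hp
      obtain ⟨h1', h2', -, -, h5'⟩ := hm p' hp'
      have heq' : a p / p = a p' / p' := heq
      have h6 := hcop p p' hne h5 h5'
      have h7 : a p / p ∣ a p := Nat.div_dvd_of_dvd h1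
      have h8 : a p / p ∣ a p' := by rw [heq']; exact Nat.div_dvd_of_dvd h1'
      have h9 := Nat.dvd_gcd h7 h8
      rw [Nat.Coprime] at h6
      rw [h6] at h9
      exact h2.one_lt.ne' (Nat.dvd_one.1 h9)
  have hsub : P ⊆ (Finset.Icc 1 (Nat.sqrt n)).filter Nat.Prime := by
    intro p hp
    obtain ⟨h1, -, h3⟩ := hmP p hp
    rw [Finset.mem_filter, Finset.mem_Icc]
    refine ⟨⟨h1.one_lt.le, ?_⟩, h1⟩
    rw [← hfl]
    refine Nat.le_floor (h3.trans ?_)
    have : Real.exp (-h) ≤ 1 := Real.exp_le_one_iff.2 (by linarith)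
    nlinarith
  have hS : (n : ℝ) * h / 2 * P0.card ≤
      ∑ p ∈ (Finset.Icc 1 (Nat.sqrt n)).filter Nat.Prime, ((n : ℝ) - (a p : ℝ)) := by
    calc (n : ℝ) * h / 2 * P0.card = ∑ _p ∈ P0, (n : ℝ) * h / 2 := by
          rw [Finset.sum_const, nsmul_eq_mul]; ring
      _ ≤ ∑ p ∈ P0, ((n : ℝ) - (a p : ℝ)) := Finset.sum_le_sum fun p hp => (Finset.mem_filter.1 hp).2
      _ ≤ _ := Finset.sum_le_sum_of_subset_of_nonneg ((Finset.filter_subset _ _).trans hsub)
          fun p _ _ => by
            have : (a p : ℝ) ≤ n := by exact_mod_cast han p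
            linarith
  have hsum' : ∑ p ∈ (Finset.Icc 1 (Nat.sqrt n)).filter Nat.Prime, ((n : ℝ) - (a p : ℝ)) ≤
      (H n : ℝ) - G n + n + 1 := by
    have h1 : ((∑ p ∈ (Finset.Icc 1 (Nat.sqrt n)).filter Nat.Prime, ((n : ℤ) - (a p : ℤ)) : ℤ) : ℝ) ≤
      (((H n : ℤ) - (G n : ℤ) + n + 1 : ℤ) : ℝ) := Int.cast_le.2 hsum
    push_cast at h1
    exact h1
  rw [← hPc, ← hQc]
  refine le_trans ?_ (hS.trans hsum')
  refine mul_le_mul_of_nonneg_left ?_ (by positivity)
  have h1 : (P.card : ℝ) = P0.card + P1.card := by exact_mod_cast hPP.symm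
  have h2 : (P1.card : ℝ) ≤ Q.card := by exact_mod_cast hinj
  linarith

end Pool.Agent.EV
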